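import Mathlib

/-! helper11. Elementary consequences of the vanishing of Ext groups in `ModuleCat`. -/

set_option autoImplicit false

namespace Pool.Agent.HWR

open CategoryTheory CategoryTheory.Abelian

variable {R : Type} [CommRing R] [HasExt.{0} (ModuleCat.{0} R)]

/-- If `Ext ^ 1 (X, M) = 0`, maps from the kernel of a surjection `F → X` to `M` extend to `F`. -/
theorem ext_lift {X M F : Type} [AddCommGroup X] [Module R X] [AddCommGroup M] [Module R M]
    [AddCommGroup F] [Module R F]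
    (h : Subsingleton (Ext (ModuleCat.of R X) (ModuleCat.of R M) 1))
    (p : F →ₗ[R] X) (hp : Function.Surjective p) (φ : LinearMap.ker p →ₗ[R] M) :
    ∃ ψ : F →ₗ[R] M, ∀ k : LinearMap.ker p, ψ k = φ k := by
  have hS := LinearMap.shortExact_shortComplexKer hp
  obtain ⟨x2, hx2⟩ := Ext.contravariant_sequence_exact₁ hS (ModuleCat.of R M)
    (Ext.mk₀ (ModuleCat.ofHom φ)) (n₁ := 1) rfl (h.elim _ _)
  obtain ⟨g, rfl⟩ := Ext.addEquiv₀.symm.surjective x2
  have h1 : Ext.mk₀ (p.shortComplexKer.f ≫ g) = Ext.mk₀ (ModuleCat.ofHom φ) := by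
    rw [← hx2]
    simp
  have h2 : p.shortComplexKer.f ≫ g = ModuleCat.ofHom φ := by
    exact Ext.addEquiv₀.symm.injective h1
  refine ⟨g.hom, fun k => ?_⟩
  have h3 := congrArg (fun z => z.hom k) h2
  exact h3

/-- Dimension shifting. -/
theorem ext_shift {X M F : Type} [AddCommGroup X] [Module R X] [AddCommGroup M] [Module R M]
    [AddCommGroup F] [Module R F] [Module.Free R F] (i : ℕ) (hi : 1 ≤ i)
    (h : Subsingleton (Ext (ModuleCat.of R X) (ModuleCat.of R M) (i + 1)))
    (p : F →ₗ[R] X) (hp : Function.Surjective p) :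
    Subsingleton (Ext (ModuleCat.of R (LinearMap.ker p)) (ModuleCat.of R M) i) := by
  have hS := LinearMap.shortExact_shortComplexKer hp
  have hz : ∀ x : Ext (ModuleCat.of R (LinearMap.ker p)) (ModuleCat.of R M) i, x = 0 := by
    intro x
    obtain ⟨x2, hx2⟩ := Ext.contravariant_sequence_exact₁ hS (ModuleCat.of R M)
      x (n₁ := i + 1) (add_comm 1 i) (h.elim _ _)
    obtain ⟨j, rfl⟩ : ∃ j, i = j + 1 := ⟨i - 1, by omega⟩
    have h3 : x2 = 0 := by
      have : Projective p.shortComplexKer.X₂ :=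
        inferInstanceAs (Projective (ModuleCat.of R F))
      exact Ext.eq_zero_of_projective x2
    rw [← hx2, h3, Ext.comp_zero]
  exact ⟨fun a b => by rw [hz a, hz b]⟩

/-- If `Ext ^ 1 (X, M) = 0`, every extension of `X` by `M` splits. -/
theorem ext_split {X M E : Type} [AddCommGroup X] [Module R X] [AddCommGroup M] [Module R M]
    [AddCommGroup E] [Module R E]
    (h : Subsingleton (Ext (ModuleCat.of R X) (ModuleCat.of R M) 1))
    (j : M →ₗ[R] E) (hj : Function.Injective j) (q : E →ₗ[R] X) (hq : Function.Surjective q)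
    (hjq : ∀ e, q e = 0 ↔ ∃ m, j m = e) :
    ∃ s : X →ₗ[R] E, ∀ x, q (s x) = x := by
  have hk : ∀ k : LinearMap.ker q, ∃ m, j m = k := fun k => (hjq k).1 k.2
  choose φ0 hφ0 using hk
  let φ : LinearMap.ker q →ₗ[R] M :=
    { toFun := φ0
      map_add' := fun a b => hj (by rw [map_add, hφ0, hφ0, hφ0, Submodule.coe_add])
      map_smul' := fun r a => hj (by
        rw [RingHom.id_apply, map_smul, hφ0, hφ0, Submodule.coe_smul]) }
  obtain ⟨ψ, hψ⟩ := ext_lift h q hq φ
  have hjψ : ∀ e, q e = 0 → j (ψ e) = e := by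
    intro e he
    have h1 := hψ ⟨e, he⟩
    rw [show ψ e = φ ⟨e, he⟩ from h1]
    exact hφ0 ⟨e, he⟩
  choose s0 hs0 using hq
  refine ⟨{ toFun := fun x => s0 x - j (ψ (s0 x)), map_add' := ?_, map_smul' := ?_ }, ?_⟩
  · intro x y
    have h1 : q (s0 (x + y) - s0 x - s0 y) = 0 := by
      rw [map_sub, map_sub, hs0, hs0, hs0]; abel
    have h2 := hjψ _ h1
    rw [map_sub, map_sub, map_sub, map_sub] at h2
    rw [← sub_eq_zero]
    have h3 : s0 (x + y) - j (ψ (s0 (x + y))) - (s0 x - j (ψ (s0 x)) + (s0 y - j (ψ (s0 y)))) =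
        (s0 (x + y) - s0 x - s0 y) -
          (j (ψ (s0 (x + y))) - j (ψ (s0 x)) - j (ψ (s0 y))) := by abel
    rw [h3, h2, sub_self]
  · intro r x
    rw [RingHom.id_apply]
    have h1 : q (s0 (r • x) - r • s0 x) = 0 := by
      rw [map_sub, map_smul, hs0, hs0, sub_self]
    have h2 := hjψ _ h1
    rw [map_sub, map_sub, map_smul, map_smul] at h2
    rw [← sub_eq_zero, smul_sub]
    have h3 : s0 (r • x) - j (ψ (s0 (r • x))) - (r • s0 x - r • j (ψ (s0 x))) =
        (s0 (r • x) - r • s0 x) - (j (ψ (s0 (r • x))) - r • j (ψ (s0 x))) := by abel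
    rw [h3, h2, sub_self]
  · intro x
    show q (s0 x - j (ψ (s0 x))) = x
    rw [map_sub, hs0, (hjq _).2 ⟨_, rfl⟩, sub_zero]

end Pool.Agent.HWR
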