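import Pool.Agent.HWR.ExtLift
import Pool.Agent.HWC.Reflex

/-! helper11. Over a one-dimensional Gorenstein local domain, `Ext ^ 1 (M, R) = 0` implies that `M`
is torsionfree. -/

set_option autoImplicit false

namespace Pool.Agent.HWR

open CategoryTheory CategoryTheory.Abelian

theorem torsionfree (R : Type) [CommRing R] [IsDomain R] [IsLocalRing R] [IsNoetherianRing R]
    (hP : HWC.Pkg R) [HasExt.{0} (ModuleCat.{0} R)] (M : Type) [AddCommGroup M] [Module R M]
    [Module.Finite R M] (h : Subsingleton (Ext (ModuleCat.of R M) (ModuleCat.of R R) 1)) :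
    HWC.TF R M := by
  intro s m hsm
  by_cases hs : s = 0
  · exact Or.inl hs
  right
  obtain ⟨n, p, hp⟩ := Module.Finite.exists_fin' R M
  obtain ⟨v, rfl⟩ := hp m
  have hsv : s • v ∈ LinearMap.ker p := by
    rw [LinearMap.mem_ker, map_smul]; exact hsm
  have htf : HWC.TF R (LinearMap.ker p) := by
    intro c k hck
    by_cases hc : c = 0
    · exact Or.inl hc
    right
    apply Subtype.ext
    funext i
    have h1 := congrFun (congrArg Subtype.val hck) i
    have h2 : c * (k : Fin n → R) i = 0 := h1
    exact (mul_eq_zero.1 h2).resolve_left hc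
  have hrefl := HWC.reflexive R hP (LinearMap.ker p) htf
  have hex : ∀ φ : Module.Dual R (LinearMap.ker p), ∃ c : R, s * c = φ ⟨s • v, hsv⟩ := by
    intro φ
    obtain ⟨ψ, hψ⟩ := ext_lift h p hp φ
    refine ⟨ψ v, ?_⟩
    rw [← hψ, map_smul, smul_eq_mul]
  choose c hc using hex
  let ξ : Module.Dual R (Module.Dual R (LinearMap.ker p)) :=
    { toFun := c
      map_add' := fun φ φ' => by
        apply mul_left_cancel₀ hs
        rw [mul_add, hc, hc, hc]
        rfl
      map_smul' := fun r φ => by
        apply mul_left_cancel₀ hs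
        rw [RingHom.id_apply, smul_eq_mul, hc, mul_left_comm, hc]
        rfl }
  obtain ⟨w, hw⟩ := hrefl.bijective_dual_eval'.2 ξ
  have hwv : (w : Fin n → R) = v := by
    funext i
    apply mul_left_cancel₀ hs
    let φ : Module.Dual R (LinearMap.ker p) := (LinearMap.proj i).comp (Submodule.subtype _)
    have h1 := hc φ
    have h2 : (w : Fin n → R) i = c φ := congrArg (fun z => z φ) hw
    rw [h2, h1]
    rfl
  rw [← hwv]
  exact w.2

end Pool.Agent.HWR
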